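import Pool.Agent.X12.Ss
import Mathlib

/-!
# The determinants `{42,-7}_n` and `{21,112}_n` vanish

If `(n/7) = -1` there is a prime factor `p` of `n` with `(-7/p) = -1`.  The curves
`y² = x (x² + 42 x - 7)` and `y² = x (x² + 21 x + 112)` have complex multiplication by an order of
`ℚ(√-7)` and are supersingular at `p`, so the sums of `(x (j² + c j x + d x²) / p)` vanish.  This
gives an explicit kernel vector of the matrix.
-/

set_option autoImplicit false

namespace Pool.Agent.Results.MP_3ec6ae_nt.SupersingularVanishing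

open Matrix Finset Pool.Agent.X12

/-- The matrix with the entries `(j² + c j k + d k² / n)`, `1 < j, k < n - 1`. -/
def M (c d : ℤ) (n : ℕ) : Matrix (Finset.Ioo 1 (n - 1)) (Finset.Ioo 1 (n - 1)) ℤ :=
  Matrix.of fun j k => jacobiSym ((j : ℤ) ^ 2 + c * j * k + d * (k : ℤ) ^ 2) n

lemma jacobi_periodic {p m : ℕ} [NeZero p] [NeZero m] (a b : ℤ)
    (h : ((p * m : ℕ) : ℤ) ∣ a - b) : jacobiSym a (p * (p * m)) = jacobiSym b (p * (p * m)) := by
  have hp : a % p = b % p := by
    apply Int.ModEq.eq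
    exact (Int.modEq_iff_dvd.2 (by
      have : ((p : ℕ) : ℤ) ∣ ((p * m : ℕ) : ℤ) := by push_cast; exact Dvd.intro _ rfl
      have h2 := (this.trans h)
      rw [← neg_sub, dvd_neg]; exact h2))
  have hm : a % m = b % m := by
    apply Int.ModEq.eq
    exact (Int.modEq_iff_dvd.2 (by
      have : ((m : ℕ) : ℤ) ∣ ((p * m : ℕ) : ℤ) := by push_cast; exact Dvd.intro_left _ rfl
      have h2 := (this.trans h)
      rw [← neg_sub, dvd_neg]; exact h2))
  rw [jacobiSym.mul_right, jacobiSym.mul_right, jacobiSym.mul_right, jacobiSym.mul_right,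
    jacobiSym.mod_left a p, jacobiSym.mod_left b p, jacobiSym.mod_left a m, jacobiSym.mod_left b m,
    hp, hm]

lemma det_nonsquarefree (c d : ℤ) {n p m : ℕ} (hp : 1 < p) (hm : 0 < m) (hn : n = p * (p * m))
    (hodd : n % 2 = 1) : (M c d n).det = 0 := by
  have : NeZero p := ⟨by omega⟩
  have : NeZero m := ⟨by omega⟩
  have hp3 : 3 ≤ p := by
    rcases Nat.lt_or_ge p 3 with h | h
    · exfalso
      have : p = 2 := by omega
      rw [hn, this] at hodd
      omega
    · exact h
  have h1 : 3 ≤ p * m := by nlinarith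
  have h2 : 3 * (p * m) ≤ n := by rw [hn]; exact Nat.mul_le_mul_right _ hp3
  have hk2 : 2 ∈ Finset.Ioo 1 (n - 1) := by rw [Finset.mem_Ioo]; omega
  have hk2' : 2 + p * m ∈ Finset.Ioo 1 (n - 1) := by rw [Finset.mem_Ioo]; omega
  refine Matrix.det_zero_of_column_eq (i := ⟨2, hk2⟩) (j := ⟨2 + p * m, hk2'⟩) ?_ fun k => ?_
  · intro h
    have := congrArg Subtype.val h
    simp only at this
    omega
  · have key : ∀ a b : ℤ, ((p * m : ℕ) : ℤ) ∣ a - b → jacobiSym a n = jacobiSym b n := by
      intro a b hab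
      rw [hn]
      exact jacobi_periodic a b hab
    simp only [M, Matrix.of_apply]
    apply key
    refine ⟨-(c * ((k : ℕ) : ℤ) + d * (2 + (2 + ((p * m : ℕ) : ℤ)))), ?_⟩
    push_cast
    ring

section

variable {p : ℕ} [Fact p.Prime]

lemma jacobi_prime (a : ℤ) : jacobiSym a p = qc p (a : ZMod p) := by
  rw [← jacobiSym.legendreSym.to_jacobiSym, legendre_eq]

/-- the sum over the multiples of `n'` -/
lemma sum_mult (c d : ℤ) {n' : ℕ}
    (hs : ∀ j : ZMod p, ∑ x : ZMod p, qc p (x * (j ^ 2 + (c : ZMod p) * j * x + (d : ZMod p) * x ^ 2)) = 0)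
    (hcop : Nat.Coprime p n') (h1 : 1 < n') (j : ℤ) :
    ∑ k ∈ range (p * n'), jacobiSym (j ^ 2 + c * j * k + d * (k : ℤ) ^ 2) (p * n') *
      (if n' ∣ k then jacobiSym k p else 0) = 0 := by
  have : NeZero n' := ⟨by omega⟩
  have hn'0 : ((n' : ℕ) : ZMod p) ≠ 0 := by
    rw [Ne, ZMod.natCast_eq_zero_iff]
    intro h
    have h2 := Nat.Coprime.eq_one_of_dvd hcop h
    exact (Fact.out : p.Prime).one_lt.ne' h2
  have e1 : ∑ k ∈ range (p * n'), jacobiSym (j ^ 2 + c * j * k + d * (k : ℤ) ^ 2) (p * n') *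
      (if n' ∣ k then jacobiSym k p else 0) =
      ∑ t ∈ range p, jacobiSym (j ^ 2) n' * qc p (((n' * t : ℕ) : ZMod p) *
        ((j : ZMod p) ^ 2 + (c : ZMod p) * j * ((n' * t : ℕ) : ZMod p) +
          (d : ZMod p) * ((n' * t : ℕ) : ZMod p) ^ 2)) := by
    symm
    rw [← Finset.sum_filter_add_sum_filter_not (range (p * n')) (fun k => n' ∣ k)]
    rw [Finset.sum_eq_zero (s := (range (p * n')).filter (fun k => ¬ n' ∣ k))
      (fun k hk => by rw [if_neg (Finset.mem_filter.1 hk).2, mul_zero]), add_zero]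
    refine Finset.sum_bij (fun t _ => n' * t) ?_ ?_ ?_ ?_
    · intro t ht
      rw [Finset.mem_filter, Finset.mem_range]
      refine ⟨?_, Dvd.intro _ rfl⟩
      rw [mul_comm p n']
      exact Nat.mul_lt_mul_of_pos_left (Finset.mem_range.1 ht) (by omega)
    · intro a _ b _ h
      exact Nat.eq_of_mul_eq_mul_left (by omega) h
    · intro k hk
      rw [Finset.mem_filter, Finset.mem_range] at hk
      obtain ⟨t, rfl⟩ := hk.2
      refine ⟨t, Finset.mem_range.2 ?_, rfl⟩
      rw [mul_comm p n'] at hk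
      exact Nat.lt_of_mul_lt_mul_left hk.1
    · intro t _
      rw [if_pos (Dvd.intro _ rfl), jacobiSym.mul_right, jacobi_prime (p := p), jacobi_prime (p := p)]
      have h3 : jacobiSym (j ^ 2 + c * j * ((n' * t : ℕ) : ℤ) + d * ((n' * t : ℕ) : ℤ) ^ 2) n' =
          jacobiSym (j ^ 2) n' := by
        rw [jacobiSym.mod_left, jacobiSym.mod_left (j ^ 2)]
        congr 1
        push_cast
        rw [show j ^ 2 + c * j * ((n' : ℤ) * t) + d * ((n' : ℤ) * t) ^ 2 =
          j ^ 2 + n' * (c * j * t + d * n' * t ^ 2) by ring, Int.add_mul_emod_self_left]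
      rw [h3]
      have h4 : qc p (((n' * t : ℕ) : ZMod p) *
        ((j : ZMod p) ^ 2 + (c : ZMod p) * j * ((n' * t : ℕ) : ZMod p) +
          (d : ZMod p) * ((n' * t : ℕ) : ZMod p) ^ 2)) =
          qc p (((j ^ 2 + c * j * ((n' * t : ℕ) : ℤ) + d * ((n' * t : ℕ) : ℤ) ^ 2 : ℤ)) : ZMod p) *
            qc p ((((n' * t : ℕ) : ℤ)) : ZMod p) := by
        rw [← qc_mul]
        congr 1
        push_cast
        ring
      rw [h4]
      ring
  rw [e1, ← Finset.mul_sum]
  have e2 : ∑ t ∈ range p, qc p (((n' * t : ℕ) : ZMod p) *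
        ((j : ZMod p) ^ 2 + (c : ZMod p) * j * ((n' * t : ℕ) : ZMod p) +
          (d : ZMod p) * ((n' * t : ℕ) : ZMod p) ^ 2)) =
      ∑ x : ZMod p, qc p (x * ((j : ZMod p) ^ 2 + (c : ZMod p) * j * x + (d : ZMod p) * x ^ 2)) := by
    rw [← Fintype.sum_equiv (Equiv.mulLeft₀ (n' : ZMod p) hn'0)
      (fun x => qc p (n' * x * ((j : ZMod p) ^ 2 + (c : ZMod p) * j * (n' * x) +
        (d : ZMod p) * (n' * x) ^ 2))) _ (fun x => rfl),
      sum_zmod (fun x : ZMod p => qc p (n' * x * ((j : ZMod p) ^ 2 + (c : ZMod p) * j * (n' * x) +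
        (d : ZMod p) * (n' * x) ^ 2)))]
    refine Finset.sum_congr rfl fun t _ => ?_
    push_cast
    rfl
  rw [e2, hs, mul_zero]

lemma det_squarefree (c d : ℤ) {n' : ℕ} (hp : p ≠ 2)
    (hs : ∀ j : ZMod p, ∑ x : ZMod p, qc p (x * (j ^ 2 + (c : ZMod p) * j * x + (d : ZMod p) * x ^ 2)) = 0)
    (hcop : Nat.Coprime p n') (h1 : 1 < n') (hodd : n' % 2 = 1) : (M c d (p * n')).det = 0 := by
  have hpr := (Fact.out : p.Prime)
  have hp3 : 3 ≤ p := by have := hpr.two_le; omega
  have hn3 : 3 ≤ n' := by omega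
  have hbig : 3 * n' ≤ p * n' := Nat.mul_le_mul_right _ hp3
  rw [← exists_mulVec_eq_zero_iff]
  refine ⟨fun k => if n' ∣ (k : ℕ) then jacobiSym (k : ℕ) p else 0, ?_, ?_⟩
  · intro h
    have hmem : n' ∈ Finset.Ioo 1 (p * n' - 1) := by rw [Finset.mem_Ioo]; omega
    have h2 := congrFun h ⟨n', hmem⟩
    simp only [dvd_refl, if_true, Pi.zero_apply] at h2
    rw [jacobiSym.eq_zero_iff] at h2
    have h3 := h2.2
    rw [Int.gcd_natCast_natCast] at h3
    exact h3 (Nat.Coprime.symm hcop)
  · ext j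
    rw [mulVec, dotProduct, Pi.zero_apply]
    have h2 := sum_mult c d hs hcop h1 (j : ℤ)
    have h3 : ∑ k : Finset.Ioo 1 (p * n' - 1), M c d (p * n') j k *
        (if n' ∣ (k : ℕ) then jacobiSym (k : ℕ) p else 0) =
        ∑ k ∈ Finset.Ioo 1 (p * n' - 1),
          jacobiSym ((j : ℤ) ^ 2 + c * j * k + d * (k : ℤ) ^ 2) (p * n') *
          (if n' ∣ k then jacobiSym k p else 0) := by
      rw [← Finset.sum_coe_sort (Finset.Ioo 1 (p * n' - 1))]
      rfl
    rw [h3]
    refine Eq.trans ?_ h2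
    apply Finset.sum_subset
    · intro k hk
      rw [Finset.mem_Ioo] at hk
      rw [Finset.mem_range]; omega
    · intro k hk hk'
      rw [Finset.mem_range] at hk
      rw [Finset.mem_Ioo] at hk'
      have h4 : k = 0 ∨ k = 1 ∨ k = p * n' - 1 := by omega
      rcases h4 with h4 | h4 | h4
      · rw [h4]
        have : jacobiSym ((0 : ℕ) : ℤ) p = 0 := by
          rw [Nat.cast_zero]; exact jacobiSym.zero_left hpr.one_lt
        rw [this]; simp
      · rw [if_neg, mul_zero]
        intro h5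
        rw [h4] at h5
        have := Nat.le_of_dvd one_pos h5
        omega
      · rw [if_neg, mul_zero]
        intro h5
        rw [h4] at h5
        have h6 : n' ∣ p * n' := Dvd.intro_left _ rfl
        have h7 := Nat.dvd_sub h6 h5
        rw [show p * n' - (p * n' - 1) = 1 by omega] at h7
        have := Nat.le_of_dvd one_pos h7
        omega

/-- Primes `p ≡ 1 (mod 4)`. -/
lemma det_prime (c d : ℤ) (hp : p % 4 = 1)
    (hs : ∀ j : ZMod p, ∑ x : ZMod p, qc p (x * (j ^ 2 + (c : ZMod p) * j * x + (d : ZMod p) * x ^ 2)) = 0)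
    (hd : qc p (d : ZMod p) = -1) (hD : (c : ZMod p) ^ 2 - 4 * d ≠ 0) : (M c d p).det = 0 := by
  have hpr := (Fact.out : p.Prime)
  have hp2 : p ≠ 2 := by omega
  have hd0 : (d : ZMod p) ≠ 0 := by
    intro h
    rw [h, qc_zero] at hd
    norm_num at hd
  rw [← exists_mulVec_eq_zero_iff]
  refine ⟨fun k => 1 - qc p ((k : ℕ) : ZMod p), ?_, ?_⟩
  · intro h
    obtain ⟨a, ha⟩ := quadraticChar_exists_neg_one (F := ZMod p) (by rw [ZMod.ringChar_zmod_n]; exact hp2)
    have ha' : qc p a = -1 := ha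
    have ha0 : a ≠ 0 := by rintro rfl; rw [qc_zero] at ha'; norm_num at ha'
    have hv := ZMod.val_lt a
    have h1 : a.val ≠ 0 := by rwa [Ne, ZMod.val_eq_zero]
    have h2 : a.val ≠ 1 := by
      intro h3
      have : a = 1 := by rw [← ZMod.natCast_zmod_val a, h3, Nat.cast_one]
      rw [this, qc_one] at ha'
      norm_num at ha'
    have h4 : a.val ≠ p - 1 := by
      intro h3
      have : a = -1 := by
        rw [← ZMod.natCast_zmod_val a, h3, Nat.cast_sub (by omega), ZMod.natCast_self]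
        simp
      rw [this, qc_neg_one_of_one hp] at ha'
      norm_num at ha'
    have hmem : a.val ∈ Finset.Ioo 1 (p - 1) := by rw [Finset.mem_Ioo]; omega
    have h5 := congrFun h ⟨a.val, hmem⟩
    simp only [ZMod.natCast_zmod_val, ha', Pi.zero_apply] at h5
    norm_num at h5
  · ext j
    rw [mulVec, dotProduct, Pi.zero_apply]
    have hj := Finset.mem_Ioo.1 j.2
    have hj0 : ((j : ℕ) : ZMod p) ≠ 0 := by
      rw [Ne, ZMod.natCast_eq_zero_iff]
      intro h
      have := Nat.le_of_dvd (by omega) h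
      omega
    set J : ZMod p := ((j : ℕ) : ZMod p) with hJ
    have h3 : ∑ k : Finset.Ioo 1 (p - 1), M c d p j k * (1 - qc p ((k : ℕ) : ZMod p)) =
        ∑ k ∈ Finset.Ioo 1 (p - 1), qc p (J ^ 2 + (c : ZMod p) * J * (k : ZMod p) +
          (d : ZMod p) * (k : ZMod p) ^ 2) * (1 - qc p (k : ZMod p)) := by
      rw [← Finset.sum_coe_sort (Finset.Ioo 1 (p - 1))]
      refine Finset.sum_congr rfl fun k _ => ?_
      rw [M, of_apply, jacobi_prime]
      push_cast
      rfl
    have h4 : ∑ k ∈ Finset.Ioo 1 (p - 1), qc p (J ^ 2 + (c : ZMod p) * J * (k : ZMod p) +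
          (d : ZMod p) * (k : ZMod p) ^ 2) * (1 - qc p (k : ZMod p)) =
        ∑ k ∈ (range p).erase 0, qc p (J ^ 2 + (c : ZMod p) * J * (k : ZMod p) +
          (d : ZMod p) * (k : ZMod p) ^ 2) * (1 - qc p (k : ZMod p)) := by
      apply Finset.sum_subset
      · intro k hk
        rw [Finset.mem_Ioo] at hk
        rw [Finset.mem_erase, Finset.mem_range]; omega
      · intro k hk hk'
        rw [Finset.mem_erase, Finset.mem_range] at hk
        rw [Finset.mem_Ioo] at hk'
        have h4 : k = 1 ∨ k = p - 1 := by omega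
        have h5 : qc p (k : ZMod p) = 1 := by
          rcases h4 with h4 | h4
          · rw [h4, Nat.cast_one, qc_one]
          · have : (k : ZMod p) = -1 := by
              rw [h4, Nat.cast_sub (by omega), ZMod.natCast_self]
              simp
            rw [this, qc_neg_one_of_one hp]
        rw [h5]; ring
    have h5 := Finset.add_sum_erase (range p) (fun k : ℕ => qc p (J ^ 2 + (c : ZMod p) * J * (k : ZMod p) +
          (d : ZMod p) * (k : ZMod p) ^ 2) * (1 - qc p (k : ZMod p))) (Finset.mem_range.2 hpr.pos)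
    simp only [Nat.cast_zero, mul_zero, add_zero, qc_zero, sub_zero, mul_one, ne_eq,
      OfNat.ofNat_ne_zero, not_false_eq_true, zero_pow] at h5
    have h6 : ∑ k ∈ range p, qc p (J ^ 2 + (c : ZMod p) * J * (k : ZMod p) +
          (d : ZMod p) * (k : ZMod p) ^ 2) * (1 - qc p (k : ZMod p)) = 1 := by
      rw [← sum_zmod (fun x : ZMod p => qc p (J ^ 2 + (c : ZMod p) * J * x + (d : ZMod p) * x ^ 2) *
        (1 - qc p x))]
      have e1 : ∀ x : ZMod p, qc p (J ^ 2 + (c : ZMod p) * J * x + (d : ZMod p) * x ^ 2) * (1 - qc p x) =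
          qc p (J ^ 2 + ((c : ZMod p) * J) * x + (d : ZMod p) * x ^ 2) -
            qc p (x * (J ^ 2 + (c : ZMod p) * J * x + (d : ZMod p) * x ^ 2)) := by
        intro x
        rw [qc_mul x]
        ring
      rw [Finset.sum_congr rfl fun x _ => e1 x, Finset.sum_sub_distrib, hs, sub_zero,
        sum_quadratic hp2 hd0, hd]
      · norm_num
      · have : ((c : ZMod p) * J) ^ 2 - 4 * d * J ^ 2 = ((c : ZMod p) ^ 2 - 4 * d) * J ^ 2 := by ring
        rw [this]
        exact mul_ne_zero hD (pow_ne_zero _ hj0)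
    have h7 : qc p (J ^ 2) = 1 := by rw [sq, qc_mul, qc_sq hj0]
    rw [h3, h4]
    rw [h6, h7] at h5
    linarith

/-- the quadratic reciprocity law -/
lemma recip (hp : p ≠ 2) (h7 : jacobiSym p 7 = -1) : qc p (-7) = -1 := by
  have hodd : Odd p := (Fact.out : p.Prime).odd_of_ne_two hp
  have h1 := jacobiSym.quadratic_reciprocity (a := 7) (b := p) (by decide) hodd
  have h2 := jacobiSym.at_neg_one hodd
  rw [ZMod.χ₄_eq_neg_one_pow (Nat.odd_iff.1 hodd)] at h2
  have h3 : jacobiSym (-1 * ((7 : ℕ) : ℤ)) p = -1 := by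
    rw [jacobiSym.mul_left, h1, h2, h7, show 7 / 2 * (p / 2) = p / 2 + 2 * (p / 2) by omega,
      pow_add, pow_mul]
    have h4 : ((-1 : ℤ) ^ (p / 2)) * (-1) ^ (p / 2) = 1 := by
      rw [← mul_pow]; norm_num
    norm_num
    linear_combination h4
  rw [jacobi_prime] at h3
  push_cast at h3
  rw [← h3]

end

/-- For every positive integer `n ≡ 1 (mod 4)` with `(n/7) = -1`, `{42,-7}_n = 0` and
`{21,112}_n = 0`. -/
theorem result (n : ℕ) (hn : n % 4 = 1) (h7 : jacobiSym n 7 = -1) :
    (M 42 (-7) n).det = 0 ∧ (M 21 112 n).det = 0 := by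
  -- a prime factor `p` with `(p/7) = -1`
  obtain ⟨p, hp, hpn, hp7⟩ : ∃ p : ℕ, p.Prime ∧ p ∣ n ∧ jacobiSym p 7 = -1 := by
    by_contra hcon
    push Not at hcon
    have hcop : jacobiSym n 7 ≠ 0 := by rw [h7]; norm_num
    have key : ∀ m : ℕ, m ∣ n → jacobiSym m 7 = 1 := by
      intro m
      induction m using Nat.recOnMul with
      | zero =>
        intro h
        rw [zero_dvd_iff] at h
        omega
      | one => intro _; exact jacobiSym.one_left 7
      | prime p hp =>
        intro h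
        have h1 := hcon p hp h
        rcases jacobiSym.trichotomy (p : ℤ) 7 with h2 | h2 | h2
        · exfalso
          obtain ⟨k, hk⟩ := h
          apply hcop
          rw [hk]
          push_cast
          rw [jacobiSym.mul_left, h2, zero_mul]
        · exact h2
        · exact absurd h2 h1
      | mul a b ha hb =>
        intro h
        push_cast
        rw [jacobiSym.mul_left, ha (dvd_of_mul_right_dvd h), hb (dvd_of_mul_left_dvd h), one_mul]
    have := key n dvd_rfl
    rw [h7] at this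
    norm_num at this
  have : Fact p.Prime := ⟨hp⟩
  obtain ⟨n', rfl⟩ := hpn
  have hodd : n' % 2 = 1 := by
    rcases Nat.mod_two_eq_zero_or_one n' with h | h
    · exfalso
      obtain ⟨k, hk⟩ := Nat.dvd_of_mod_eq_zero h
      rw [hk, show p * (2 * k) = 2 * (p * k) by ring] at hn
      omega
    · exact h
  have hp2 : p ≠ 2 := by
    rintro rfl
    omega
  have hq := recip hp2 hp7
  have hs1 : ∀ j : ZMod p, ∑ x : ZMod p, qc p (x * (j ^ 2 + ((42 : ℤ) : ZMod p) * j * x +
      ((-7 : ℤ) : ZMod p) * x ^ 2)) = 0 := by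
    intro j
    have := sum_row hp2 (ss_two hp2 hq) j
    push_cast
    exact this
  have hs2 : ∀ j : ZMod p, ∑ x : ZMod p, qc p (x * (j ^ 2 + ((21 : ℤ) : ZMod p) * j * x +
      ((112 : ℤ) : ZMod p) * x ^ 2)) = 0 := by
    intro j
    have := sum_row hp2 (ss_one hp2 hq) j
    push_cast
    exact this
  by_cases h1 : n' = 1
  · subst h1
    rw [mul_one] at hn ⊢
    have h2 := two_ne hp2
    have h7' := ne_seven hq
    refine ⟨det_prime 42 (-7) hn hs1 ?_ ?_, det_prime 21 112 hn hs2 ?_ ?_⟩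
    · push_cast; exact hq
    · push_cast
      have : ((42 : ZMod p) ^ 2 - 4 * (-7)) = 2 ^ 8 * 7 := by norm_num
      rw [this]
      exact mul_ne_zero (pow_ne_zero _ h2) h7'
    · push_cast
      have e1 : (112 : ZMod p) = (2 * 2) * (2 * 2) * (-1) * (-7) := by norm_num
      rw [e1, qc_mul, qc_mul, qc_mul (2 * 2), qc_mul 2 2, qc_sq h2, hq, qc_neg_one_of_one hn]
      norm_num
    · push_cast
      have : ((21 : ZMod p) ^ 2 - 4 * 112) = -7 := by norm_num
      rw [this]
      exact neg_ne_zero.2 h7'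
  · by_cases hcop : Nat.Coprime p n'
    · exact ⟨det_squarefree 42 (-7) hp2 hs1 hcop (by omega) hodd,
        det_squarefree 21 112 hp2 hs2 hcop (by omega) hodd⟩
    · have h2 : p ∣ n' := by
        by_contra h3
        exact hcop ((Nat.Prime.coprime_iff_not_dvd hp).2 h3)
      obtain ⟨m, rfl⟩ := h2
      have hm : 0 < m := by
        rcases Nat.eq_zero_or_pos m with h3 | h3
        · rw [h3] at hodd
          omega
        · exact h3
      exact ⟨det_nonsquarefree 42 (-7) (p := p) (m := m) hp.one_lt hm rfl (by omega),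
        det_nonsquarefree 21 112 (p := p) (m := m) hp.one_lt hm rfl (by omega)⟩

end Pool.Agent.Results.MP_3ec6ae_nt.SupersingularVanishing
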